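import Pool.Agent.Helper19_LogPot.Ellipse3

/-!
# MP_ccba21_an, Q2: the answer is negative, already for ellipses

For every `R > 1` all sufficiently thin ellipses of transfinite diameter `R` (semi-axes `R(1+q)` and
`R(1-q)`, `q` close to `1`) satisfy `τ̃₁(Ω) > τ̃₁(B_R)`.
-/

open Filter Topology
open Pool.Agent.Helper19_LogPot

namespace Pool.Agent.Results.MP_ccba21_an.ReverseFKCapacityFails

/-- **Disproof of Q2**, for every `R > 1`, by convex domains: the ellipse with semi-axes `R(1+q)`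
and `R(1-q)` has transfinite diameter `R`, and `τ̃₁(Ω) > τ̃₁(B_R)` whenever `q < 1` is close to `1`. -/
theorem result : ∀ R : ℝ, 1 < R → ∃ q₀ : ℝ, q₀ < 1 ∧ ∀ q : ℝ, q₀ < q → q < 1 →
    IsBoundedDomain (Ell R q) ∧ Convex ℝ (Ell R q) ∧ HasTransfiniteDiameter (Ell R q) R ∧
    tau (Metric.ball 0 R) < tau (Ell R q) := by
  intro R hR
  have hR0 : 0 < R := by linarith
  obtain ⟨t, ht, hte⟩ := exists_neg_eigenvalue hR
  obtain ⟨q₀, hq₀, hq₀1, hq⟩ := exists_thin_ell hR0 ht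
  refine ⟨q₀, hq₀1, fun q hq1 hq2 => ?_⟩
  have hq0 : 0 ≤ q := hq₀.trans hq1.le
  obtain ⟨b, hb1, hb0, hb⟩ := hq q hq1 hq2
  refine ⟨isBoundedDomain_Ell hR0 hq0 hq2, convex_Ell R q,
    hasTransfiniteDiameter_Ell hR0 hq0 hq2, ?_⟩
  have h1 : tau (Metric.ball 0 R) ≤ t := by
    obtain ⟨c, hc⟩ := bddBelow_eigenvalues R
    exact csInf_le ⟨c, fun s hs => hc s hs.2⟩ ⟨ht, hte⟩
  have h2 : b ≤ tau (Ell R q) := by
    rcases Set.eq_empty_or_nonempty {s : ℝ | s < 0 ∧ IsLogEigenvalue (Ell R q) s} with h | h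
    · rw [tau, h, Real.sInf_empty]; exact hb0
    · exact le_csInf h fun s hs => hb s hs.2
  linarith

end Pool.Agent.Results.MP_ccba21_an.ReverseFKCapacityFails
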