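import Pool.Agent.Helper19_RFK.All

/-!
# MP_ccba21_an, Q1: the reverse Faber-Krahn inequality

Every bounded domain `Ω` of the plane satisfies `τ̃₁(Ω) ≤ τ̃₁(Ω*)`, `Ω*` the open disc of the same area.
-/

open MeasureTheory
open Pool.Agent.Helper19_LogPot

namespace Pool.Agent.Results.MP_ccba21_an.ReverseFaberKrahn

/-- **Q1**: for every bounded domain `Ω`, `τ̃₁(Ω) ≤ τ̃₁(Ω*)`, where `Ω*` is the open disc of the same
area (radius `√(|Ω|/π)`, centre `0`). -/
theorem result : ∀ Ω : Set ℂ, IsBoundedDomain Ω →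
    tau Ω ≤ tau (Metric.ball (0 : ℂ) (Real.sqrt ((volume Ω).toReal / Real.pi))) :=
  Pool.Agent.RFK.H19.finalAll

end Pool.Agent.Results.MP_ccba21_an.ReverseFaberKrahn
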